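import Pool.Agent.H705.RO.Stm

/-! # EV: union bound over a grid and Borel-Cantelli over `ℕ × ℕ` (helper383 for helper705) -/

set_option autoImplicit false

namespace Pool.Agent.H383.RO

open MeasureTheory ProbabilityTheory Filter Topology Finset
open Pool.Agent.H705.RO

lemma exp_neg_nat_le (n : ℕ) : Real.exp (-(n : ℝ)) ≤ (1 / 2 : ℝ) ^ n := by
  have h1 : Real.exp (-(n : ℝ)) = (Real.exp (-1)) ^ n := by
    rw [← Real.exp_nat_mul]
    congr 1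
    ring
  rw [h1]
  apply pow_le_pow_left₀ (Real.exp_pos _).le
  rw [Real.exp_neg, one_div]
  apply inv_anti₀ (by norm_num)
  have := Real.add_one_le_exp (1 : ℝ)
  linarith

lemma lam_sq (C p : ℝ) (A j k : ℕ) (hC : 0 < C) :
    (Real.sqrt (2 * C * (A + 8)) * (2 : ℝ) ^ (-(p * j / 2)) * Real.sqrt ((j : ℝ) + k)) ^ 2 /
      (2 * (C * (2 : ℝ) ^ (-(p * j)))) = (((A + 8) * (j + k) : ℕ) : ℝ) := by
  have h1 : ((2 : ℝ) ^ (-(p * j / 2))) ^ 2 = (2 : ℝ) ^ (-(p * j)) := by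
    rw [← Real.rpow_natCast, ← Real.rpow_mul (by norm_num)]
    congr 1
    push_cast
    ring
  rw [mul_pow, mul_pow, Real.sq_sqrt (by positivity), Real.sq_sqrt (by positivity), h1]
  have h2 : (0 : ℝ) < (2 : ℝ) ^ (-(p * j)) := by positivity
  field_simp
  push_cast
  ring

lemma count_le (A j k : ℕ) :
    ((2 : ℝ) ^ (k + (A + 4) * j) + 1) * ((2 : ℝ) ^ (j + 1) - 2 ^ j + 1) *
      (2 * (1 / 2 : ℝ) ^ ((A + 8) * (j + k))) ≤ 8 * (1 / 2 : ℝ) ^ j * (1 / 2 : ℝ) ^ k := by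
  have h1 : (2 : ℝ) ^ (k + (A + 4) * j) + 1 ≤ 2 ^ (k + (A + 4) * j + 1) := by
    have : (1 : ℝ) ≤ 2 ^ (k + (A + 4) * j) := one_le_pow₀ (by norm_num)
    rw [pow_succ]
    linarith
  have h2 : (2 : ℝ) ^ (j + 1) - 2 ^ j + 1 ≤ 2 ^ (j + 1) := by
    have : (1 : ℝ) ≤ 2 ^ j := one_le_pow₀ (by norm_num)
    linarith
  have h20 : (0 : ℝ) ≤ (2 : ℝ) ^ (j + 1) - 2 ^ j + 1 := by
    have : (0 : ℝ) < 2 ^ j := by positivity
    rw [pow_succ]
    linarith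
  have h3 : ((2 : ℝ) ^ (k + (A + 4) * j) + 1) * ((2 : ℝ) ^ (j + 1) - 2 ^ j + 1) ≤
      2 ^ (k + (A + 4) * j + 1) * 2 ^ (j + 1) :=
    mul_le_mul h1 h2 h20 (by positivity)
  have h4 : (0 : ℝ) ≤ 2 * (1 / 2 : ℝ) ^ ((A + 8) * (j + k)) := by positivity
  refine (mul_le_mul_of_nonneg_right h3 h4).trans ?_
  have h5 : (2 : ℝ) ^ (k + (A + 4) * j + 1) * 2 ^ (j + 1) * (2 * (1 / 2 : ℝ) ^ ((A + 8) * (j + k))) =
      8 * (2 : ℝ) ^ (k + (A + 5) * j) * (1 / 2 : ℝ) ^ ((A + 8) * (j + k)) := by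
    have : (2 : ℝ) ^ (k + (A + 4) * j + 1) * 2 ^ (j + 1) = 4 * 2 ^ (k + (A + 5) * j) := by
      rw [← pow_add]
      have e : k + (A + 4) * j + 1 + (j + 1) = (k + (A + 5) * j) + 2 := by ring
      rw [e, pow_add]
      ring
    rw [this]
    ring
  rw [h5]
  have h6 : (A + 8) * (j + k) = (k + (A + 5) * j) + (j + k) + (2 * j + (A + 6) * k) := by ring
  have h60 : (1 / 2 : ℝ) ^ ((A + 8) * (j + k)) = (1 / 2 : ℝ) ^ (k + (A + 5) * j) *
      ((1 / 2 : ℝ) ^ j * (1 / 2 : ℝ) ^ k) * (1 / 2 : ℝ) ^ (2 * j + (A + 6) * k) := by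
    rw [h6, pow_add _ (k + (A + 5) * j + (j + k)), pow_add _ (k + (A + 5) * j), pow_add _ j]
  rw [h60]
  have h7 : (2 : ℝ) ^ (k + (A + 5) * j) * (1 / 2 : ℝ) ^ (k + (A + 5) * j) = 1 := by
    rw [← mul_pow]
    norm_num
  have h8 : (1 / 2 : ℝ) ^ (2 * j + (A + 6) * k) ≤ 1 := pow_le_one₀ (by norm_num) (by norm_num)
  calc 8 * (2 : ℝ) ^ (k + (A + 5) * j) * ((1 / 2 : ℝ) ^ (k + (A + 5) * j) *
        ((1 / 2 : ℝ) ^ j * (1 / 2 : ℝ) ^ k) * (1 / 2 : ℝ) ^ (2 * j + (A + 6) * k)) =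
      8 * ((2 : ℝ) ^ (k + (A + 5) * j) * (1 / 2 : ℝ) ^ (k + (A + 5) * j)) *
        ((1 / 2 : ℝ) ^ j * (1 / 2 : ℝ) ^ k) * (1 / 2 : ℝ) ^ (2 * j + (A + 6) * k) := by ring
    _ ≤ 8 * ((2 : ℝ) ^ (k + (A + 5) * j) * (1 / 2 : ℝ) ^ (k + (A + 5) * j)) *
        ((1 / 2 : ℝ) ^ j * (1 / 2 : ℝ) ^ k) * 1 := by
          apply mul_le_mul_of_nonneg_left h8 (by positivity)
    _ = 8 * (1 / 2 : ℝ) ^ j * (1 / 2 : ℝ) ^ k := by
          rw [h7]
          ring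

theorem T_EV (hHOE : P_HOE) : P_EV := by
  intro Ω _ P X hM a β g w A p C ha hp hp1 hC hv
  have hprob := hM.prob
  let lam : ℕ → ℕ → ℝ := fun j k =>
    Real.sqrt (2 * C * (A + 8)) * (2 : ℝ) ^ (-(p * j / 2)) * Real.sqrt ((j : ℝ) + k)
  let B : ℕ × ℕ → Set Ω := fun x => {ω | 1 ≤ x.1 + x.2 ∧ ∃ i M : ℕ,
    i ≤ 2 ^ (x.2 + (A + 4) * x.1) ∧ 2 ^ x.1 ≤ M ∧ M ≤ 2 ^ (x.1 + 1) ∧
    lam x.1 x.2 < |∑ n ∈ Ico (2 ^ x.1) M,
      wave a β g w (fun n => X n ω) n ((i : ℝ) / 2 ^ ((A + 4) * x.1))|}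
  have hB : ∀ x, P (B x) ≤ ENNReal.ofReal (8 * (1 / 2 : ℝ) ^ x.1 * (1 / 2 : ℝ) ^ x.2) := by
    rintro ⟨j, k⟩
    by_cases hjk : 1 ≤ j + k
    · have hlam : 0 < lam j k := by
        have h1 : (0 : ℝ) < (j : ℝ) + k := by
          have : (1 : ℝ) ≤ (j : ℝ) + k := by exact_mod_cast hjk
          linarith
        change 0 < Real.sqrt (2 * C * (A + 8)) * (2 : ℝ) ^ (-(p * j / 2)) *
          Real.sqrt ((j : ℝ) + k)
        positivity
      have hv0 : 0 < C * (2 : ℝ) ^ (-(p * j)) := by positivity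
      have hsub : B (j, k) ⊆ ⋃ i ∈ Finset.range (2 ^ (k + (A + 4) * j) + 1),
          ⋃ M ∈ Finset.Icc (2 ^ j) (2 ^ (j + 1)), {ω | lam j k ≤ |∑ n ∈ Ico (2 ^ j) M,
            wave a β g w (fun n => X n ω) n ((i : ℝ) / 2 ^ ((A + 4) * j))|} := by
        rintro ω ⟨_, i, M, hi, hM1, hM2, hlt⟩
        rw [Set.mem_iUnion₂]
        refine ⟨i, Finset.mem_range.mpr (Nat.lt_succ_of_le hi), ?_⟩
        rw [Set.mem_iUnion₂]
        exact ⟨M, Finset.mem_Icc.mpr ⟨hM1, hM2⟩, hlt.le⟩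
      have h1 : ∀ i ∈ Finset.range (2 ^ (k + (A + 4) * j) + 1),
          ∀ M ∈ Finset.Icc (2 ^ j) (2 ^ (j + 1)), P {ω | lam j k ≤ |∑ n ∈ Ico (2 ^ j) M,
            wave a β g w (fun n => X n ω) n ((i : ℝ) / 2 ^ ((A + 4) * j))|} ≤
            ENNReal.ofReal (2 * (1 / 2 : ℝ) ^ ((A + 8) * (j + k))) := by
        intro i _ M hMM
        refine (hHOE Ω P X hM a β g w ha ((i : ℝ) / 2 ^ ((A + 4) * j)) (2 ^ j) M (lam j k)
          (C * (2 : ℝ) ^ (-(p * j))) hlam hv0 (hv j M (Finset.mem_Icc.mp hMM).1)).trans ?_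
        apply ENNReal.ofReal_le_ofReal
        have h2 : lam j k ^ 2 / (2 * (C * (2 : ℝ) ^ (-(p * j)))) =
            (((A + 8) * (j + k) : ℕ) : ℝ) := lam_sq C p A j k hC
        rw [h2]
        have h3 := exp_neg_nat_le ((A + 8) * (j + k))
        linarith
      refine (measure_mono hsub).trans ?_
      refine (measure_biUnion_finset_le _ _).trans ?_
      have h4 : ∀ i ∈ Finset.range (2 ^ (k + (A + 4) * j) + 1),
          P (⋃ M ∈ Finset.Icc (2 ^ j) (2 ^ (j + 1)), {ω | lam j k ≤ |∑ n ∈ Ico (2 ^ j) M,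
            wave a β g w (fun n => X n ω) n ((i : ℝ) / 2 ^ ((A + 4) * j))|}) ≤
          ENNReal.ofReal (((2 : ℝ) ^ (j + 1) - 2 ^ j + 1) *
            (2 * (1 / 2 : ℝ) ^ ((A + 8) * (j + k)))) := by
        intro i hi
        refine (measure_biUnion_finset_le _ _).trans ?_
        refine (Finset.sum_le_card_nsmul _ _ _ (h1 i hi)).trans ?_
        rw [nsmul_eq_mul, Nat.card_Icc, ← ENNReal.ofReal_natCast,
          ← ENNReal.ofReal_mul (Nat.cast_nonneg _)]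
        apply ENNReal.ofReal_le_ofReal
        have h5 : ((2 ^ (j + 1) + 1 - 2 ^ j : ℕ) : ℝ) = (2 : ℝ) ^ (j + 1) - 2 ^ j + 1 := by
          rw [Nat.cast_sub]
          · push_cast
            ring
          · have : 2 ^ j ≤ 2 ^ (j + 1) := Nat.pow_le_pow_right (by norm_num) (Nat.le_succ j)
            omega
        rw [h5]
      refine (Finset.sum_le_card_nsmul _ _ _ h4).trans ?_
      have h20 : (0 : ℝ) ≤ (2 : ℝ) ^ (j + 1) - 2 ^ j + 1 := by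
        have : (0 : ℝ) < 2 ^ j := by positivity
        rw [pow_succ]
        linarith
      rw [nsmul_eq_mul, Finset.card_range, ← ENNReal.ofReal_natCast,
        ← ENNReal.ofReal_mul (Nat.cast_nonneg _)]
      apply ENNReal.ofReal_le_ofReal
      have h6 := count_le A j k
      push_cast
      calc ((2 : ℝ) ^ (k + (A + 4) * j) + 1) * (((2 : ℝ) ^ (j + 1) - 2 ^ j + 1) *
            (2 * (1 / 2 : ℝ) ^ ((A + 8) * (j + k)))) =
          ((2 : ℝ) ^ (k + (A + 4) * j) + 1) * ((2 : ℝ) ^ (j + 1) - 2 ^ j + 1) *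
            (2 * (1 / 2 : ℝ) ^ ((A + 8) * (j + k))) := by ring
        _ ≤ _ := h6
    · have hempty : B (j, k) = ∅ := by
        apply Set.eq_empty_of_forall_notMem
        rintro ω ⟨h, _⟩
        exact hjk h
      rw [hempty, measure_empty]
      exact zero_le
  have hs : Summable (fun x : ℕ × ℕ => 8 * (1 / 2 : ℝ) ^ x.1 * (1 / 2 : ℝ) ^ x.2) := by
    have h1 : Summable (fun n : ℕ => (1 / 2 : ℝ) ^ n) :=
      summable_geometric_of_lt_one (by norm_num) (by norm_num)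
    exact Summable.mul_of_nonneg (h1.mul_left 8) h1 (fun n => by positivity)
      (fun n => by positivity)
  have hsum : ∑' x, P (B x) ≠ ⊤ :=
    ne_top_of_le_ne_top hs.tsum_ofReal_ne_top (ENNReal.tsum_le_tsum hB)
  filter_upwards [ae_finite_setOfPred_mem hsum] with ω hω
  obtain ⟨K, hK⟩ := (hω.image (fun x : ℕ × ℕ => x.1 + x.2)).bddAbove
  refine ⟨K + 1, fun j k hjk i M hi hM1 hM2 => ?_⟩
  by_contra hcon
  rw [not_le] at hcon
  have hmem : (j, k) ∈ {x | ω ∈ B x} := ⟨by omega, i, M, hi, hM1, hM2, hcon⟩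
  have hle : j + k ≤ K := hK (Set.mem_image_of_mem _ hmem)
  omega

end Pool.Agent.H383.RO
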